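import Pool.Agent.helper38.VA.Spec

/-!
# Project va (MP_a2a22c_al), row KCH: choice of the elements
-/

set_option autoImplicit false

namespace Pool.Agent.VA

open Matrix Module Pool.Agent.PR Pool.Agent.H48SL

/-- the adjugate of `2 x 2` matrices is linear -/
def KCH_adj : M2 →ₗ[ℚ] M2 where
  toFun A := adjugate A
  map_add' A B := by
    rw [adjugate_fin_two, adjugate_fin_two, adjugate_fin_two]
    ext i j
    fin_cases i <;> fin_cases j <;> simp <;> ring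
  map_smul' c A := by
    rw [adjugate_fin_two, adjugate_fin_two]
    ext i j
    fin_cases i <;> fin_cases j <;> simp

lemma KCH_adj_apply (A : M2) : KCH_adj A = adjugate A := rfl

/-- the first column -/
def KCH_col : M2 →ₗ[ℚ] (Fin 2 → ℚ) where
  toFun A := fun i => A i 0
  map_add' A B := by
    funext i
    rfl
  map_smul' c A := by
    funext i
    rfl

lemma KCH_det_zero (A : M2) (h : KCH_col A = 0) : A.det = 0 := by
  have h0 : A 0 0 = 0 := congrFun h 0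
  have h1 : A 1 0 = 0 := congrFun h 1
  rw [det_fin_two, h0, h1]
  ring

/-- the inverse of the first column on `W₂` -/
lemma KCH_psi (W₂ : Submodule ℚ M2) (h2 : finrank ℚ W₂ = 2)
    (hdet : ∀ x ∈ W₂, x ≠ 0 → x.det ≠ 0) :
    ∃ Ψ : (Fin 2 → ℚ) →ₗ[ℚ] M2, (∀ v, Ψ v ∈ W₂) ∧ ∀ v, KCH_col (Ψ v) = v := by
  let f : W₂ →ₗ[ℚ] (Fin 2 → ℚ) := KCH_col ∘ₗ W₂.subtype
  have hf : Function.Injective f := by
    rw [injective_iff_map_eq_zero]
    intro x hx
    by_contra hne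
    have h3 : (x : M2) ≠ 0 := fun h => hne (Subtype.ext h)
    exact hdet x x.2 h3 (KCH_det_zero _ hx)
  have hfin : finrank ℚ W₂ = finrank ℚ (Fin 2 → ℚ) := by
    rw [h2, Module.finrank_fin_fun]
  let e := LinearMap.linearEquivOfInjective f hf hfin
  refine ⟨W₂.subtype ∘ₗ e.symm.toLinearMap, fun v => (e.symm v).2, fun v => ?_⟩
  have h3 : f (e.symm v) = v := by
    have h4 : e (e.symm v) = v := e.apply_symm_apply v
    rw [← h4]
    simp only [LinearEquiv.symm_apply_apply]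
    rfl
  exact h3

lemma KCH_den (W₂ : Submodule ℚ M2) (Λ : AddSubgroup M2) (hfg : Λ.FG)
    (hfull : ∀ x ∈ W₂, ∃ k : ℕ, 0 < k ∧ (k : ℚ) • x ∈ Λ) (L : M2 →ₗ[ℚ] M2)
    (hL : ∀ x, L x ∈ W₂) : ∃ D : ℕ, 0 < D ∧ ∀ x ∈ Λ, (D : ℚ) • L x ∈ Λ := by
  classical
  obtain ⟨S, hS⟩ := hfg
  choose k hk0 hk using fun x : M2 => hfull (L x) (hL x)
  refine ⟨∏ s ∈ S, k s, Finset.prod_pos fun s _ => hk0 s, ?_⟩
  intro x hx
  rw [← hS] at hx
  induction hx using AddSubgroup.closure_induction with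
  | mem y hy =>
    have hy' : y ∈ S := hy
    rw [← Finset.mul_prod_erase S k hy', Nat.cast_mul, mul_comm, mul_smul]
    have h1 : ((∏ s ∈ S.erase y, k s : ℕ) : ℚ) • (k y : ℚ) • L y =
        (∏ s ∈ S.erase y, k s : ℕ) • ((k y : ℚ) • L y) := by
      rw [Nat.cast_smul_eq_nsmul]
    rw [h1]
    exact AddSubgroup.nsmul_mem _ (hk y) _
  | zero =>
    rw [map_zero, smul_zero]
    exact AddSubgroup.zero_mem _
  | add y z _ _ hy hz =>
    rw [map_add, smul_add]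
    exact AddSubgroup.add_mem _ hy hz
  | neg y _ hy =>
    rw [map_neg, smul_neg]
    exact AddSubgroup.neg_mem _ hy

lemma KCH_pow (W₂ : Submodule ℚ M2) (T : M2 →ₗ[ℚ] M2) (hT : ∀ x ∈ W₂, T x ∈ W₂)
    (hTd : ∀ x ∈ W₂, (T x).det = x.det) (j : ℕ) :
    (∀ x ∈ W₂, (T ^ j) x ∈ W₂) ∧ ∀ x ∈ W₂, ((T ^ j) x).det = x.det := by
  induction j with
  | zero =>
    refine ⟨fun x hx => ?_, fun x hx => ?_⟩
    · rw [pow_zero]; exact hx
    · rw [pow_zero]; rfl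
  | succ j ih =>
    refine ⟨fun x hx => ?_, fun x hx => ?_⟩
    · rw [pow_succ', Module.End.mul_apply]
      exact hT _ (ih.1 x hx)
    · rw [pow_succ', Module.End.mul_apply, hTd _ (ih.1 x hx), ih.2 x hx]

lemma KCH_inv (A : M2) : A⁻¹ = (A.det)⁻¹ • adjugate A := by
  rw [Matrix.inv_def, Ring.inverse_eq_inv']

/-- the two differences span -/
lemma KCH_span (W₂ : Submodule ℚ M2) (T : M2 →ₗ[ℚ] M2) (hT : ∀ x ∈ W₂, T x ∈ W₂) (j : ℕ)
    (hj : ∀ x ∈ W₂, (T ^ j) x = x → x = 0) (hTj : ∀ x ∈ W₂, (T ^ j) x ∈ W₂)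
    (b : Basis (Fin 2) ℚ W₂) (k : Fin 2 → ℕ) (hk : ∀ i, 0 < k i) (y : M2) (hy : y ∈ W₂) :
    ∃ c : Fin 2 → ℚ, y = ∑ i, c i • ((T ^ j) ((k i : ℚ) • (b i : M2)) - (k i : ℚ) • (b i : M2)) := by
  haveI : FiniteDimensional ℚ W₂ := b.finiteDimensional_of_finite
  let f : W₂ →ₗ[ℚ] W₂ := ((T ^ j) - LinearMap.id).restrict (p := W₂) (q := W₂)
    (fun x hx => W₂.sub_mem (hTj x hx) hx)
  have hf : Function.Injective f := by
    rw [injective_iff_map_eq_zero]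
    intro x hx
    have h1 : (T ^ j) (x : M2) - (x : M2) = 0 := congrArg Subtype.val hx
    exact Subtype.ext (hj x x.2 (sub_eq_zero.1 h1))
  obtain ⟨y', hy'⟩ := (LinearMap.injective_iff_surjective.1 hf) ⟨y, hy⟩
  have h2 : (T ^ j) (y' : M2) - (y' : M2) = y := congrArg Subtype.val hy'
  refine ⟨fun i => (b.repr y' i) / (k i : ℚ), ?_⟩
  have h3 : (y' : M2) = ∑ i, (b.repr y' i) • (b i : M2) := by
    conv_lhs => rw [← b.sum_repr y']
    rw [Submodule.coe_sum]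
    rfl
  rw [← h2]
  conv_lhs => rw [h3]
  rw [map_sum, ← Finset.sum_sub_distrib]
  refine Finset.sum_congr rfl fun i _ => ?_
  have hki : (k i : ℚ) ≠ 0 := by exact_mod_cast (hk i).ne'
  rw [map_smul, map_smul, ← smul_sub, ← smul_sub, smul_smul, div_mul_cancel₀ _ hki]

theorem KCH : KCH_stmt := by
  intro W₂ h2 hdet T hT hTd hTinj Λ hfg hΛ hfull hcong C C' hC hC' hy
  classical
  obtain ⟨y, hyW, hyn⟩ := hy
  obtain ⟨Ψ, hΨ, hΨc⟩ := KCH_psi W₂ h2 hdet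
  haveI : FiniteDimensional ℚ W₂ := Module.finite_of_finrank_pos (by rw [h2]; norm_num)
  let b : Basis (Fin 2) ℚ W₂ := Module.finBasisOfFinrankEq ℚ W₂ h2
  choose k hk0 hk using fun i : Fin 2 => hfull (b i : M2) (b i).2
  let w : Fin 2 → M2 := fun i => (k i : ℚ) • (b i : M2)
  have hwΛ : ∀ i, w i ∈ Λ := hk
  have hwW : ∀ i, w i ∈ W₂ := fun i => hΛ _ (hwΛ i)
  have hw0 : ∀ i, w i ≠ 0 := by
    intro i h0
    have hki : (k i : ℚ) ≠ 0 := by exact_mod_cast (hk0 i).ne'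
    have h1 : (b i : M2) = 0 := (smul_eq_zero.1 h0).resolve_left hki
    exact b.ne_zero i (Subtype.ext h1)
  have hwd : ∀ i, (w i).det ≠ 0 := fun i => hdet _ (hwW i) (hw0 i)
  let L : Fin 2 → (M2 →ₗ[ℚ] M2) := fun i => ((w i).det)⁻¹ •
    (Ψ ∘ₗ KCH_col ∘ₗ (LinearMap.mulLeft ℚ C⁻¹) ∘ₗ (LinearMap.mulRight ℚ C'⁻¹) ∘ₗ KCH_adj)
  have hLW : ∀ i x, L i x ∈ W₂ := fun i x => W₂.smul_mem _ (hΨ _)
  choose D hD0 hD using fun i : Fin 2 => KCH_den W₂ Λ hfg hfull (L i) (hLW i)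
  let DD : ℕ := D 0 * D 1
  have hDD0 : 0 < DD := Nat.mul_pos (hD0 0) (hD0 1)
  have hDD : ∀ i, ∀ x ∈ Λ, (DD : ℚ) • L i x ∈ Λ := by
    intro i x hx
    have h3 : ∀ (m : ℕ) (v : M2), v ∈ Λ → (m : ℚ) • v ∈ Λ := by
      intro m v hv
      rw [Nat.cast_smul_eq_nsmul]
      exact AddSubgroup.nsmul_mem _ hv _
    fin_cases i
    · show ((D 0 * D 1 : ℕ) : ℚ) • L 0 x ∈ Λ
      rw [mul_comm, Nat.cast_mul, mul_smul]
      exact h3 _ _ (hD 0 x hx)
    · show ((D 0 * D 1 : ℕ) : ℚ) • L 1 x ∈ Λ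
      rw [Nat.cast_mul, mul_smul]
      exact h3 _ _ (hD 1 x hx)
  choose j hj0 hj using fun i : Fin 2 => hcong (w i) (hwW i) DD hDD0
  let J : ℕ := j 0 * j 1
  have hJ0 : 0 < J := Nat.mul_pos (hj0 0) (hj0 1)
  have hJ : ∀ i, ∃ z ∈ Λ, (T ^ J) (w i) - w i = (DD : ℚ) • z := by
    intro i
    fin_cases i
    · exact hj 0 (j 1)
    · have h3 := hj 1 (j 0)
      rw [mul_comm] at h3
      exact h3
  choose z hzΛ hz using hJ
  obtain ⟨hTJ, hTJd⟩ := KCH_pow W₂ T hT hTd J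
  obtain ⟨c, hc⟩ := KCH_span W₂ T hT J (hTinj J hJ0) hTJ b k hk0 y hyW
  have hDQ : (DD : ℚ) ≠ 0 := by exact_mod_cast hDD0.ne'
  -- one of the two indices works
  have hex : ∃ i, adjugate C * adjugate (z i) * adjugate C' ∉ W₂ := by
    by_contra hcon
    push Not at hcon
    apply hyn
    have h3 : adjugate C * adjugate y * adjugate C' =
        ∑ i, (c i * DD) • (adjugate C * adjugate (z i) * adjugate C') := by
      have h4 : y = ∑ i, (c i * DD) • z i := by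
        rw [hc]
        refine Finset.sum_congr rfl fun i _ => ?_
        have := hz i
        rw [mul_smul, ← this]
      rw [← KCH_adj_apply y, h4, map_sum, Matrix.mul_sum, Matrix.sum_mul]
      refine Finset.sum_congr rfl fun i _ => ?_
      rw [map_smul, Matrix.mul_smul, Matrix.smul_mul, KCH_adj_apply]
    rw [h3]
    exact W₂.sum_mem fun i _ => W₂.smul_mem _ (hcon i)
  obtain ⟨i, hi⟩ := hex
  have hx2 : -(T ^ J) (w i) = -(w i) - (DD : ℚ) • z i := by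
    rw [← hz i]
    abel
  have hM : C⁻¹ * ((w i)⁻¹ + (-(T ^ J) (w i))⁻¹) * C'⁻¹ =
      (-((DD : ℚ) * ((w i).det)⁻¹)) • (C⁻¹ * adjugate (z i) * C'⁻¹) := by
    have h3 : (-(T ^ J) (w i)).det = (w i).det := by
      rw [Matrix.det_neg, Fintype.card_fin, hTJd _ (hwW i)]
      norm_num
    have h4 : (w i)⁻¹ + (-(T ^ J) (w i))⁻¹ = (-((DD : ℚ) * ((w i).det)⁻¹)) • adjugate (z i) := by
      rw [KCH_inv, KCH_inv, h3, ← smul_add, ← KCH_adj_apply, ← KCH_adj_apply, ← KCH_adj_apply,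
        ← map_add, hx2]
      have h5 : w i + (-(w i) - (DD : ℚ) • z i) = (-(DD : ℚ)) • z i := by
        rw [neg_smul]
        abel
      rw [h5, map_smul, smul_smul]
      congr 1
      ring
    rw [h4, Matrix.mul_smul, Matrix.smul_mul]
  refine ⟨w i, hwΛ i, -(T ^ J) (w i), ?_, (DD : ℚ) • L i (z i), hDD i _ (hzΛ i), hwd i, ?_, ?_, ?_⟩
  · rw [hx2]
    refine AddSubgroup.sub_mem _ (AddSubgroup.neg_mem _ (hwΛ i)) ?_
    rw [Nat.cast_smul_eq_nsmul]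
    exact AddSubgroup.nsmul_mem _ (hzΛ i) _
  · rw [Matrix.det_neg, Fintype.card_fin, hTJd _ (hwW i)]
    norm_num
    exact hwd i
  · apply KCH_det_zero
    rw [map_add, hM, map_smul, map_smul]
    have h3 : KCH_col (L i (z i)) = ((w i).det)⁻¹ • KCH_col (C⁻¹ * adjugate (z i) * C'⁻¹) := by
      show KCH_col (((w i).det)⁻¹ • Ψ (KCH_col (C⁻¹ * (adjugate (z i) * C'⁻¹)))) = _
      rw [map_smul, hΨc, Matrix.mul_assoc]
    rw [h3, smul_smul, ← add_smul]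
    have h4 : (DD : ℚ) * ((w i).det)⁻¹ + -((DD : ℚ) * ((w i).det)⁻¹) = 0 := by ring
    rw [h4, zero_smul]
  · intro h0
    rw [hM] at h0
    apply hi
    have h3 : (-((DD : ℚ) * ((w i).det)⁻¹)) • (C⁻¹ * adjugate (z i) * C'⁻¹) ∈ W₂ := by
      rw [eq_neg_of_add_eq_zero_right h0]
      exact W₂.neg_mem (W₂.smul_mem _ (hLW i _))
    have hs : (-((DD : ℚ) * ((w i).det)⁻¹)) ≠ 0 :=
      neg_ne_zero.2 (mul_ne_zero hDQ (inv_ne_zero (hwd i)))
    have h4 : C⁻¹ * adjugate (z i) * C'⁻¹ ∈ W₂ := by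
      have := W₂.smul_mem (-((DD : ℚ) * ((w i).det)⁻¹))⁻¹ h3
      rwa [inv_smul_smul₀ hs] at this
    have h5 : adjugate C * adjugate (z i) * adjugate C' =
        (C.det * C'.det) • (C⁻¹ * adjugate (z i) * C'⁻¹) := by
      rw [KCH_inv C, KCH_inv C', Matrix.mul_smul, Matrix.smul_mul, Matrix.smul_mul, smul_smul,
        smul_smul]
      have h6 : C.det * C'.det * (C'.det)⁻¹ * (C.det)⁻¹ = 1 := by
        field_simp
      rw [h6, one_smul]
    rw [h5]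
    exact W₂.smul_mem _ h4

end Pool.Agent.VA
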